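import Pool.Agent.H72.ProLie.Data

/-! Pro-Lie limits (module P of MP_93228b_al): commutator limit formula, no small subgroups,
directedness, limits along a cofinal family of closed normal subgroups, one-parameter subgroups. -/

open Filter Topology Set Metric
open scoped commutatorElement

namespace Pool.Agent.H72.ProLie

namespace ExpData

section

variable {G : Type*} [Group G] [TopologicalSpace G] {E : Type*} [NormedAddCommGroup E]
  [NormedSpace ℝ E] (D : ExpData G E)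

include D in
/-- P1: no small subgroups. -/
theorem nss : ∃ U ∈ 𝓝 (1 : G), ∀ S : Subgroup G, (S : Set G) ⊆ U → S = ⊥ := by
  refine ⟨D.exp '' ball 0 1, D.image_mem one_pos, fun S hS => ?_⟩
  rw [Subgroup.eq_bot_iff_forall]
  intro s hs
  have key : ∀ k : ℕ, ∀ g ∈ S, ∀ x : E, ‖x‖ < 1 → D.exp x = g → (2 : ℝ) ^ k * ‖x‖ < 1 := by
    intro k
    induction k with
    | zero => intro g hg x hx hxg; simpa using hx
    | succ k ih =>
      intro g hg x hx hxg
      obtain ⟨y, hy, hyg⟩ := hS (S.mul_mem hg hg)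
      rw [mem_ball_zero_iff] at hy
      have h1 : D.exp ((2 : ℝ) • x) = g * g := by
        have := D.exp_add 1 1 x
        rw [one_smul, hxg] at this
        rw [← this]; norm_num
      have h2 : y = (2 : ℝ) • x := by
        refine D.inj' (by linarith) ?_ (by rw [h1]; exact hyg)
        rw [norm_smul, Real.norm_of_nonneg (by norm_num)]
        linarith
      have h3 := ih (g * g) (S.mul_mem hg hg) y hy hyg
      rw [h2, norm_smul, Real.norm_of_nonneg (by norm_num)] at h3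
      rw [pow_succ]; linarith
  obtain ⟨x, hx, hxs⟩ := hS hs
  rw [mem_ball_zero_iff] at hx
  have h0 : ‖x‖ = 0 := by
    by_contra hne
    have hpos : 0 < ‖x‖ := lt_of_le_of_ne (norm_nonneg _) (Ne.symm hne)
    obtain ⟨k, hk⟩ := pow_unbounded_of_one_lt (‖x‖⁻¹) (one_lt_two (α := ℝ))
    have h1 := key k s hs x hx hxs
    have h2 : 1 < (2 : ℝ) ^ k * ‖x‖ := by
      rwa [inv_lt_iff_one_lt_mul₀ hpos] at hk
    linarith
  rw [← hxs, norm_eq_zero.1 h0, D.exp_zero]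

variable [IsTopologicalGroup G] [T2Space G] [FiniteDimensional ℝ E]

/-- P0: the commutator limit formula. -/
theorem comm_limit (x y : E) :
    Tendsto (fun n : ℕ => (⁅D.exp ((n : ℝ)⁻¹ • x), D.exp ((n : ℝ)⁻¹ • y)⁆) ^ (n ^ 2)) atTop
      (𝓝 (D.exp (D.br x y))) := by
  -- `a n = Ad (exp (x / n)) y`
  set a : ℕ → E := fun n => D.Ad (D.exp ((n : ℝ)⁻¹ • x)) y with ha
  have hinv : Tendsto (fun n : ℕ => (n : ℝ)⁻¹) atTop (𝓝 0) := tendsto_inv_atTop_nhds_zero_nat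
  have ha0 : Tendsto a atTop (𝓝 y) := by
    have h1 : Continuous fun t : ℝ => D.Ad (D.exp (t • x)) y :=
      (D.Ad_line_cont x).clm_apply continuous_const
    have h2 := (h1.tendsto 0).comp hinv
    simpa [D.exp_zero, D.Ad_one, Function.comp_def] using h2
  have ha1 : Tendsto (fun n : ℕ => (n : ℝ) • (a n - y)) atTop (𝓝 (D.br x y)) := by
    have h1 := (D.hasDerivAt_apply x y).tendsto_slope_zero
    have h2 : Tendsto (fun n : ℕ => (n : ℝ)⁻¹) atTop (𝓝[≠] 0) := by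
      rw [tendsto_nhdsWithin_iff]
      refine ⟨hinv, ?_⟩
      filter_upwards [eventually_gt_atTop 0] with n hn
      simp only [mem_compl_iff, mem_singleton_iff, inv_eq_zero, Nat.cast_eq_zero]
      omega
    have h3 := h1.comp h2
    simpa [Function.comp_def, D.exp_zero, D.Ad_one] using h3
  have hw : ∀ᶠ n : ℕ in atTop, ∃ w : E,
      ⁅D.exp ((n : ℝ)⁻¹ • x), D.exp ((n : ℝ)⁻¹ • y)⁆ = D.exp (-w) ∧
      ‖((n : ℝ) ^ 2) • (-w) - (n : ℝ) • (a n - y)‖ ≤ ‖y‖ * (102 / 100) * ‖a n - y‖ / 100 := by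
    have hs1 : ∀ᶠ n : ℕ in atTop, ‖(n : ℝ)⁻¹ • y‖ < 3 / 2 := by
      have h : Tendsto (fun n : ℕ => ‖(n : ℝ)⁻¹ • y‖) atTop (𝓝 0) := by
        have := (hinv.smul_const y).norm
        simpa using this
      exact h.eventually (gt_mem_nhds (by norm_num))
    have hs2 : ∀ᶠ n : ℕ in atTop, ‖(n : ℝ)⁻¹ • a n‖ < 3 / 2 := by
      have h : Tendsto (fun n : ℕ => ‖(n : ℝ)⁻¹ • a n‖) atTop (𝓝 0) := by
        have := (hinv.smul ha0).norm
        simpa using this
      exact h.eventually (gt_mem_nhds (by norm_num))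
    filter_upwards [hs1, hs2, eventually_gt_atTop 0] with n h1 h2 hn
    have hn0 : (0 : ℝ) < n := by exact_mod_cast hn
    obtain ⟨w, hw1, hw2, -, hw4⟩ := D.toC11.diff_ex (x := -((n : ℝ)⁻¹ • y)) (y := -((n : ℝ)⁻¹ • a n))
      (by rw [norm_neg]; exact h1.le) (by rw [norm_neg]; exact h2.le)
    rw [toC11_e] at hw1
    refine ⟨w, ?_, ?_⟩
    · have h3 : D.exp ((n : ℝ)⁻¹ • x) * D.exp ((n : ℝ)⁻¹ • y) * (D.exp ((n : ℝ)⁻¹ • x))⁻¹ =
          D.exp ((n : ℝ)⁻¹ • a n) := D.Ad_spec _ _ _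
      rw [commutatorElement_def, h3, D.exp_neg w]
      have h4 : D.exp w = (D.exp (-((n : ℝ)⁻¹ • y)))⁻¹ * D.exp (-((n : ℝ)⁻¹ • a n)) := by
        rw [← hw1]; group
      rw [h4, mul_inv_rev, inv_inv, D.exp_neg, D.exp_neg, inv_inv]
    · have e1 : -((n : ℝ)⁻¹ • a n) - -((n : ℝ)⁻¹ • y) = -((n : ℝ)⁻¹ • (a n - y)) := by
        rw [smul_sub]; abel
      rw [e1] at hw2 hw4
      rw [norm_neg, norm_smul, norm_inv, Real.norm_of_nonneg hn0.le] at hw4
      rw [norm_neg, norm_smul, norm_inv, Real.norm_of_nonneg hn0.le] at hw2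
      have e2 : ((n : ℝ) ^ 2) • (-w) - (n : ℝ) • (a n - y) =
          -(((n : ℝ) ^ 2) • (w - -((n : ℝ)⁻¹ • (a n - y)))) := by
        have h : (n : ℝ) ^ 2 * (n : ℝ)⁻¹ = n := by field_simp
        rw [sub_neg_eq_add, smul_add, smul_smul, h, smul_neg]; abel
      rw [e2, norm_neg, norm_smul, Real.norm_of_nonneg (by positivity)]
      have h5 : ‖w - -((n : ℝ)⁻¹ • (a n - y))‖ ≤
          (n : ℝ)⁻¹ * ‖y‖ * (102 / 100 * ((n : ℝ)⁻¹ * ‖a n - y‖)) / 100 := by
        refine hw2.trans ?_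
        have := mul_le_mul_of_nonneg_left hw4 (by positivity : 0 ≤ (n : ℝ)⁻¹ * ‖y‖)
        linarith
      have h6 := mul_le_mul_of_nonneg_left h5 (by positivity : (0 : ℝ) ≤ (n : ℝ) ^ 2)
      refine h6.trans (le_of_eq ?_)
      field_simp
  -- pass to a sequence
  have hex : ∀ n : ℕ, ∃ w : E, (∃ w : E,
      ⁅D.exp ((n : ℝ)⁻¹ • x), D.exp ((n : ℝ)⁻¹ • y)⁆ = D.exp (-w) ∧
      ‖((n : ℝ) ^ 2) • (-w) - (n : ℝ) • (a n - y)‖ ≤ ‖y‖ * (102 / 100) * ‖a n - y‖ / 100) →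
      (⁅D.exp ((n : ℝ)⁻¹ • x), D.exp ((n : ℝ)⁻¹ • y)⁆ = D.exp (-w) ∧
      ‖((n : ℝ) ^ 2) • (-w) - (n : ℝ) • (a n - y)‖ ≤ ‖y‖ * (102 / 100) * ‖a n - y‖ / 100) := by
    intro n
    by_cases h : ∃ w : E,
      ⁅D.exp ((n : ℝ)⁻¹ • x), D.exp ((n : ℝ)⁻¹ • y)⁆ = D.exp (-w) ∧
      ‖((n : ℝ) ^ 2) • (-w) - (n : ℝ) • (a n - y)‖ ≤ ‖y‖ * (102 / 100) * ‖a n - y‖ / 100
    · obtain ⟨w, hw⟩ := h
      exact ⟨w, fun _ => hw⟩
    · exact ⟨0, fun h' => absurd h' h⟩
  choose w hw' using hex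
  have hww : ∀ᶠ n : ℕ in atTop,
      ⁅D.exp ((n : ℝ)⁻¹ • x), D.exp ((n : ℝ)⁻¹ • y)⁆ = D.exp (-(w n)) ∧
      ‖((n : ℝ) ^ 2) • (-(w n)) - (n : ℝ) • (a n - y)‖ ≤ ‖y‖ * (102 / 100) * ‖a n - y‖ / 100 := by
    filter_upwards [hw] with n hn
    exact hw' n hn
  have hlim : Tendsto (fun n : ℕ => ((n : ℝ) ^ 2) • (-(w n))) atTop (𝓝 (D.br x y)) := by
    have h1 : Tendsto (fun n : ℕ => ((n : ℝ) ^ 2) • (-(w n)) - (n : ℝ) • (a n - y)) atTop (𝓝 0) := by
      rw [tendsto_zero_iff_norm_tendsto_zero]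
      have h2 : Tendsto (fun n : ℕ => ‖y‖ * (102 / 100) * ‖a n - y‖ / 100) atTop (𝓝 0) := by
        have h3 : Tendsto (fun n : ℕ => ‖a n - y‖) atTop (𝓝 0) := by
          have := (ha0.sub_const y).norm
          simpa using this
        have := (h3.const_mul (‖y‖ * (102 / 100))).div_const 100
        simpa using this
      refine squeeze_zero' (Eventually.of_forall fun n => norm_nonneg _) ?_ h2
      filter_upwards [hww] with n hn
      exact hn.2
    have := h1.add ha1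
    simpa using this
  have h4 := (D.cont.tendsto (D.br x y)).comp hlim
  refine h4.congr' ?_
  filter_upwards [hww] with n hn
  rw [hn.1]
  have : ((n : ℝ) ^ 2) = ((n ^ 2 : ℕ) : ℝ) := by push_cast; ring
  simp only [Function.comp]
  rw [this, D.exp_nsmul]

end

end ExpData

/-! ### Limits -/

section Lim

variable {G : Type*} [Group G] [TopologicalSpace G] [IsTopologicalGroup G]
variable {ι : Type*} (N : ι → Subgroup G) [∀ i, (N i).Normal]

omit [TopologicalSpace G] [IsTopologicalGroup G] in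
theorem quot_eq_iff {i : ι} {a b : G} : ((a : G ⧸ N i) = b) ↔ a⁻¹ * b ∈ N i := QuotientGroup.eq

variable {N}

/-- P6 (general filter version). -/
theorem tendsto_of_quot (hsmall : ∀ U ∈ 𝓝 (1 : G), ∃ i, (N i : Set G) ⊆ U) {α : Type*}
    {l : Filter α} {u : α → G} {g : G}
    (h : ∀ i, Tendsto (fun n => (u n : G ⧸ N i)) l (𝓝 (g : G ⧸ N i))) : Tendsto u l (𝓝 g) := by
  have h1 : Tendsto (fun n => g⁻¹ * u n) l (𝓝 1) := by
    rw [tendsto_def]
    intro W hW
    obtain ⟨V, hV, hVW⟩ := exists_nhds_one_split hW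
    obtain ⟨i, hi⟩ := hsmall V hV
    -- the image of `g • V` is a neighbourhood of `g`
    have h2 : ((fun x : G => (x : G ⧸ N i)) '' ((fun x => g * x) '' V)) ∈ 𝓝 (g : G ⧸ N i) := by
      refine (QuotientGroup.isOpenMap_coe (N := N i)).image_mem_nhds ?_
      have : (Homeomorph.mulLeft g) '' V ∈ 𝓝 ((Homeomorph.mulLeft g) 1) :=
        (Homeomorph.mulLeft g).isOpenMap.image_mem_nhds hV
      simpa using this
    have h2' : ∀ᶠ n in l, (u n : G ⧸ N i) ∈ (fun x : G => (x : G ⧸ N i)) '' ((fun x => g * x) '' V) :=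
      (h i).eventually h2
    filter_upwards [h2'] with n hn
    obtain ⟨_, ⟨v, hv, rfl⟩, hvn⟩ := hn
    have h3 : (g * v)⁻¹ * u n ∈ N i := QuotientGroup.eq.1 hvn
    have h4 : g⁻¹ * u n = v * ((g * v)⁻¹ * u n) := by group
    show g⁻¹ * u n ∈ W
    rw [h4]
    exact hVW v hv _ (hi h3)
  have h2 := h1.const_mul g
  simpa using h2

theorem tendsto_quot {α : Type*} {l : Filter α} {u : α → G} {g : G} (h : Tendsto u l (𝓝 g)) (i : ι) :
    Tendsto (fun n => (u n : G ⧸ N i)) l (𝓝 (g : G ⧸ N i)) :=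
  ((QuotientGroup.continuous_mk (N := N i)).tendsto g).comp h

/-- P6. -/
theorem tendsto_iff_quot (hsmall : ∀ U ∈ 𝓝 (1 : G), ∃ i, (N i : Set G) ⊆ U) {α : Type*}
    {l : Filter α} {u : α → G} {g : G} :
    Tendsto u l (𝓝 g) ↔ ∀ i, Tendsto (fun n => (u n : G ⧸ N i)) l (𝓝 (g : G ⧸ N i)) :=
  ⟨fun h i => tendsto_quot h i, tendsto_of_quot hsmall⟩

variable {E : ι → Type*} [∀ i, NormedAddCommGroup (E i)] [∀ i, NormedSpace ℝ (E i)]

/-- P2. -/
theorem directed (D : ∀ i, ExpData (G ⧸ N i) (E i))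
    (hsmall : ∀ U ∈ 𝓝 (1 : G), ∃ i, (N i : Set G) ⊆ U) (i j : ι) : ∃ k, N k ≤ N i ∧ N k ≤ N j := by
  have h1 : ∀ i, ∃ U ∈ 𝓝 (1 : G), ∀ S : Subgroup G, (S : Set G) ⊆ U → S ≤ N i := by
    intro i
    obtain ⟨U, hU, hS⟩ := (D i).nss
    refine ⟨(fun x : G => (x : G ⧸ N i)) ⁻¹' U, ?_, ?_⟩
    · exact (QuotientGroup.continuous_mk (N := N i)).continuousAt.preimage_mem_nhds (by simpa using hU)
    · intro S hSU x hx
      have h2 : S.map (QuotientGroup.mk' (N i)) = ⊥ := by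
        apply hS
        rintro _ ⟨y, hy, rfl⟩
        exact hSU hy
      have h3 : QuotientGroup.mk' (N i) x ∈ S.map (QuotientGroup.mk' (N i)) :=
        Subgroup.mem_map_of_mem _ hx
      rw [h2, Subgroup.mem_bot] at h3
      simpa using h3
  obtain ⟨U, hU, hUS⟩ := h1 i
  obtain ⟨V, hV, hVS⟩ := h1 j
  obtain ⟨k, hk⟩ := hsmall _ (inter_mem hU hV)
  exact ⟨k, hUS _ (hk.trans inter_subset_left), hVS _ (hk.trans inter_subset_right)⟩

omit [∀ i, (N i).Normal] in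
/-- uniqueness in P3 -/
theorem eq_of_quot [T2Space G] (hsmall : ∀ U ∈ 𝓝 (1 : G), ∃ i, (N i : Set G) ⊆ U) {a b : G}
    (h : ∀ i, (a : G ⧸ N i) = b) : a = b := by
  by_contra hne
  have h1 : a⁻¹ * b ≠ 1 := by
    intro h; exact hne (inv_mul_eq_one.1 h)
  obtain ⟨i, hi⟩ := hsmall _ (isOpen_compl_singleton.mem_nhds (show (1 : G) ∈ ({a⁻¹ * b} : Set G)ᶜ by
    simpa using fun h => h1 h.symm))
  exact hi (QuotientGroup.eq.1 (h i)) rfl

/-- P3, existence. -/
theorem exists_lim (D : ∀ i, ExpData (G ⧸ N i) (E i))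
    (hclosed : ∀ i, IsClosed (N i : Set G))
    (hsmall : ∀ U ∈ 𝓝 (1 : G), ∃ i, (N i : Set G) ⊆ U)
    (hcomp : ∀ F : Filter G, F.NeBot → Tendsto (fun p : G × G => p.1⁻¹ * p.2) (F ×ˢ F) (𝓝 1) →
      ∃ g, F ≤ 𝓝 g)
    (g : ∀ i, G ⧸ N i)
    (hg : ∀ i j, N i ≤ N j → ∀ a : G, (a : G ⧸ N i) = g i → (a : G ⧸ N j) = g j) :
    ∃ a : G, ∀ i, (a : G ⧸ N i) = g i := by
  obtain ⟨i0, -⟩ := hsmall univ univ_mem
  haveI : Nonempty ι := ⟨i0⟩
  set A : ι → Set G := fun i => {a | (a : G ⧸ N i) = g i} with hA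
  have hne : ∀ i, (A i).Nonempty := by
    intro i
    obtain ⟨a, ha⟩ := QuotientGroup.mk_surjective (g i)
    exact ⟨a, ha⟩
  have hdir : Directed (· ≥ ·) A := by
    intro i j
    obtain ⟨k, hki, hkj⟩ := directed D hsmall i j
    exact ⟨k, fun a ha => hg k i hki a ha, fun a ha => hg k j hkj a ha⟩
  have hdir' : Directed (· ≥ ·) fun i => 𝓟 (A i) := by
    intro i j
    obtain ⟨k, hk1, hk2⟩ := hdir i j
    exact ⟨k, principal_mono.2 hk1, principal_mono.2 hk2⟩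
  set F : Filter G := ⨅ i, 𝓟 (A i) with hF
  haveI hFne : F.NeBot := iInf_neBot_of_directed' hdir' (fun i => principal_neBot_iff.2 (hne i))
  have hmem : ∀ i, A i ∈ F := fun i => mem_iInf_of_mem i (mem_principal_self _)
  obtain ⟨a, ha⟩ := hcomp F hFne (by
    intro W hW
    obtain ⟨i, hi⟩ := hsmall W hW
    refine mem_map.2 (mem_of_superset (prod_mem_prod (hmem i) (hmem i)) ?_)
    rintro ⟨x, y⟩ ⟨hx, hy⟩
    refine hi ?_
    have : (x : G ⧸ N i) = y := by rw [show (x : G ⧸ N i) = g i from hx, show (y : G ⧸ N i) = g i from hy]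
    exact QuotientGroup.eq.1 this)
  refine ⟨a, fun i => ?_⟩
  -- `A i` is closed
  have hcl : IsClosed (A i) := by
    haveI : IsClosed (N i : Set G) := hclosed i
    haveI : T1Space (G ⧸ N i) := by
      have := hclosed i
      infer_instance
    exact isClosed_singleton.preimage (QuotientGroup.continuous_mk (N := N i))
  have h3 : a ∈ A i := hcl.mem_of_tendsto (b := F) (f := id) (by simpa [Tendsto] using ha) (hmem i)
  exact h3

omit [∀ i, (N i).Normal] in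
theorem closed_T1 (i : ι) (hclosed : IsClosed (N i : Set G)) : T1Space (G ⧸ N i) := by
  infer_instance

/-- P4, existence of the one-parameter subgroup. -/
theorem exists_oneParam [T2Space G] (D : ∀ i, ExpData (G ⧸ N i) (E i))
    (hclosed : ∀ i, IsClosed (N i : Set G))
    (hsmall : ∀ U ∈ 𝓝 (1 : G), ∃ i, (N i : Set G) ⊆ U)
    (hcomp : ∀ F : Filter G, F.NeBot → Tendsto (fun p : G × G => p.1⁻¹ * p.2) (F ×ˢ F) (𝓝 1) →
      ∃ g, F ≤ 𝓝 g)
    (x : ∀ i, E i)
    (hx : ∀ i j, N i ≤ N j → ∀ t : ℝ, ∀ a : G, (a : G ⧸ N i) = (D i).exp (t • x i) →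
      (a : G ⧸ N j) = (D j).exp (t • x j)) :
    ∃ X : Multiplicative ℝ →ₜ* G, ∀ i (t : ℝ),
      (X (Multiplicative.ofAdd t) : G ⧸ N i) = (D i).exp (t • x i) := by
  have h1 : ∀ t : ℝ, ∃ a : G, ∀ i, (a : G ⧸ N i) = (D i).exp (t • x i) := fun t =>
    exists_lim D hclosed hsmall hcomp (fun i => (D i).exp (t • x i)) (fun i j hij a ha =>
      hx i j hij t a ha)
  choose X hX using h1
  refine ⟨{ toFun := fun t => X t.toAdd, map_one' := ?_, map_mul' := ?_, continuous_toFun := ?_ },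
    fun i t => hX t i⟩
  · refine eq_of_quot hsmall (fun i => ?_)
    show (X 0 : G ⧸ N i) = _
    rw [hX, zero_smul, (D i).exp_zero]; rfl
  · intro s t
    refine eq_of_quot hsmall (fun i => ?_)
    show (X (s.toAdd + t.toAdd) : G ⧸ N i) = _
    rw [hX, (D i).exp_add, QuotientGroup.mk_mul, hX, hX]
  · rw [continuous_iff_continuousAt]
    intro t
    refine tendsto_of_quot hsmall (fun i => ?_)
    have h2 : (fun n : Multiplicative ℝ => ((X n.toAdd : G) : G ⧸ N i)) =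
        fun n => (D i).exp (n.toAdd • x i) := by
      funext n; exact hX _ i
    have h3 : ((X t.toAdd : G) : G ⧸ N i) = (D i).exp (t.toAdd • x i) := hX _ i
    show Tendsto (fun n : Multiplicative ℝ => ((X n.toAdd : G) : G ⧸ N i)) (𝓝 t)
      (𝓝 ((X t.toAdd : G) : G ⧸ N i))
    rw [h2, h3]
    have h4 : Continuous fun n : Multiplicative ℝ => (D i).exp (n.toAdd • x i) := by
      refine (D i).cont.comp ?_
      exact (continuous_toAdd).smul continuous_const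
    exact h4.tendsto t

/-- P4, logarithmic coordinates of a one-parameter subgroup. -/
theorem exists_coord (D : ∀ i, ExpData (G ⧸ N i) (E i)) (hclosed : ∀ i, IsClosed (N i : Set G))
    (X : Multiplicative ℝ →ₜ* G) (i : ι) :
    ∃! x : E i, ∀ t : ℝ, (X (Multiplicative.ofAdd t) : G ⧸ N i) = (D i).exp (t • x) := by
  haveI : IsClosed (N i : Set G) := hclosed i
  obtain ⟨v, hv⟩ := (D i).oneParam (fun t : ℝ => (X (Multiplicative.ofAdd t) : G ⧸ N i))
    ((QuotientGroup.continuous_mk (N := N i)).comp (X.continuous_toFun.comp continuous_ofAdd))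
    (by intro s t; rw [ofAdd_add, map_mul, QuotientGroup.mk_mul])
  refine ⟨v, hv, fun w hw => ?_⟩
  exact (D i).exp_line_unique' (fun t => by rw [← hw, ← hv])

omit [∀ i, (N i).Normal] in
/-- P5. -/
theorem mem_of_closed (hsmall : ∀ U ∈ 𝓝 (1 : G), ∃ i, (N i : Set G) ⊆ U)
    {A : Type*} [Monoid A] [TopologicalSpace A]
    (h : Set (A →ₜ* G)) (hc : IsClosed h) (X : A →ₜ* G)
    (hX : ∀ i, ∃ Y ∈ h, ∀ t, ((Y t : G) : G ⧸ N i) = (X t : G)) : X ∈ h := by
  choose Y hYh hY using hX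
  set L : Filter ι := ((𝓝 (1 : G)).smallSets).comap (fun i => (N i : Set G)) with hL
  have hLmem : ∀ U ∈ 𝓝 (1 : G), ∀ᶠ i in L, (N i : Set G) ⊆ U := by
    intro U hU
    have : ∀ᶠ s in (𝓝 (1 : G)).smallSets, s ⊆ U := eventually_smallSets_subset.2 (by exact hU) 
    exact (tendsto_comap (f := fun i => (N i : Set G))).eventually this
  haveI : L.NeBot := by
    rw [hL, comap_neBot_iff]
    intro s hs
    obtain ⟨U, hU, hUs⟩ := (hasBasis_smallSets _).mem_iff.1 hs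
    obtain ⟨i, hi⟩ := hsmall U hU
    exact ⟨i, hUs hi⟩
  refine hc.mem_of_tendsto (b := L) (f := Y) ?_ (Eventually.of_forall hYh)
  rw [(ContinuousMonoidHom.isInducing_toContinuousMap A G).tendsto_nhds_iff,
    ContinuousMap.tendsto_nhds_compactOpen]
  intro K hK U hU hXU
  obtain ⟨W, hW, hWU⟩ := compact_open_separated_mul_right (hK.image X.continuous_toFun) hU
    (by rintro _ ⟨x, hx, rfl⟩; exact hXU hx)
  filter_upwards [hLmem W hW] with i hi t ht
  have h1 : (X t)⁻¹ * Y i t ∈ N i := QuotientGroup.eq.1 (hY i t).symm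
  have h2 : Y i t = X t * ((X t)⁻¹ * Y i t) := by group
  show Y i t ∈ U
  rw [h2]
  exact hWU (Set.mul_mem_mul ⟨t, ht, rfl⟩ (hi h1))

end Lim

end Pool.Agent.H72.ProLie
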